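import Pool.Agent.Y922.KB.Stm

set_option autoImplicit false

/-! # Assembly of the Bergman space maximum principle -/

namespace Pool.Agent.Y931.KB

open Complex Metric MeasureTheory Set Pool.Agent.Y922.KB
open scoped Real Topology

theorem lint_mono (p : ℝ) (hp : 0 ≤ p) (f g : ℂ → ℂ)
    (h : ∀ z ∈ ball (0 : ℂ) 1, ‖f z‖ ≤ ‖g z‖) :
    ∫⁻ z in ball (0 : ℂ) 1, ‖f z‖ₑ ^ p ≤ ∫⁻ z in ball (0 : ℂ) 1, ‖g z‖ₑ ^ p := by
  refine setLIntegral_mono' measurableSet_ball (fun z hz => ENNReal.rpow_le_rpow ?_ hp)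
  exact enorm_le_iff_norm_le.2 (h z hz)

theorem zero_case (ε : ℝ) (hε : 0 < ε) (f g : ℂ → ℂ) (hf : DifferentiableOn ℂ f (ball 0 1))
    (hfg : ∀ z ∈ Ann ε, ‖f z‖ ≤ ‖g z‖) (hε2 : ε ≤ 1 / 2)
    (hg : ∀ z ∈ ball (0 : ℂ) 1, g z = 0) : ∀ z ∈ ball (0 : ℂ) 1, ‖f z‖ ≤ ‖g z‖ := by
  have hopen : IsOpen (Ann ε) := by
    have : Ann ε = {z : ℂ | 1 - ε < ‖z‖} ∩ {z : ℂ | ‖z‖ < 1} := rfl
    rw [this]
    exact (isOpen_lt continuous_const continuous_norm).inter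
      (isOpen_lt continuous_norm continuous_const)
  have hn : ‖((1 - ε / 4 : ℝ) : ℂ)‖ = 1 - ε / 4 := by
    rw [Complex.norm_real, Real.norm_eq_abs, abs_of_nonneg (by linarith)]
  have hz0 : ((1 - ε / 4 : ℝ) : ℂ) ∈ Ann ε := by
    refine ⟨?_, ?_⟩ <;> rw [hn] <;> linarith
  have hb : ((1 - ε / 4 : ℝ) : ℂ) ∈ ball (0 : ℂ) 1 := by
    rw [mem_ball_zero_iff]
    exact hz0.2
  have hev : f =ᶠ[𝓝 ((1 - ε / 4 : ℝ) : ℂ)] 0 := by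
    filter_upwards [hopen.mem_nhds hz0] with z hz
    have h1 := hfg z hz
    rw [hg z (by rw [mem_ball_zero_iff]; exact hz.2), norm_zero] at h1
    exact norm_le_zero_iff.1 h1
  have han : AnalyticOnNhd ℂ f (ball 0 1) := hf.analyticOnNhd isOpen_ball
  have := han.eqOn_zero_of_preconnected_of_eventuallyEq_zero
    (convex_ball (0 : ℂ) 1).isPreconnected hb hev
  intro z hz
  have h1 : f z = 0 := this hz
  rw [h1, norm_zero]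
  exact norm_nonneg _

/-- Maximum principle on the closed disc. -/
theorem maxp (r B : ℝ) (hr : 0 < r) (hr1 : r < 1) (F : ℂ → ℂ)
    (hF : DifferentiableOn ℂ F (ball 0 1)) (hB : ∀ z : ℂ, ‖z‖ = r → ‖F z‖ ≤ B) :
    ∀ z : ℂ, ‖z‖ ≤ r → ‖F z‖ ≤ B := by
  intro z hz
  have hd : DiffContOnCl ℂ F (ball 0 r) :=
    hF.diffContOnCl_ball (closedBall_subset_ball hr1)
  refine Complex.norm_le_of_forall_mem_frontier_norm_le isBounded_ball hd ?_ ?_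
  · intro x hx
    rw [frontier_ball (0 : ℂ) hr.ne', mem_sphere_zero_iff_norm] at hx
    exact hB x hx
  · rw [closure_ball (0 : ℂ) hr.ne', mem_closedBall_zero_iff]
    exact hz

theorem t_FIN : S_FIN := by
  intro hQUO hSTEP hCHAIN hMEAN hBLA hNZ hREG hNUM hINT
  obtain ⟨C₁, hC₁, hch⟩ := hCHAIN hSTEP
  obtain ⟨C, hC, hnum⟩ := hNUM C₁ hC₁
  refine ⟨C, hC, ?_⟩
  intro ε p f g hε hε2 hpC hf hg hfg
  obtain ⟨hp1, hnum1⟩ := hnum ε p hε hε2 hpC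
  have hp0 : 0 < p := lt_of_lt_of_le one_pos hp1
  by_cases hg0 : ∀ z ∈ ball (0 : ℂ) 1, g z = 0
  · exact lint_mono p hp0.le f g (zero_case ε hε f g hf hfg hε2 hg0)
  by_cases hz : ∀ z : ℂ, ‖z‖ ≤ 1 - ε → g z ≠ 0
  · exact lint_mono p hp0.le f g (hNZ ε f g hε hε2 hf hg hfg hz)
  push Not at hg0 hz
  obtain ⟨b, hb1, hb2⟩ := hz
  obtain ⟨w, hw, hw1, hfw⟩ := hQUO ε f g hε hε2 hf hg hfg hg0
  -- the base point
  have hn : ‖((1 - ε / 4 : ℝ) : ℂ)‖ = 1 - ε / 4 := by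
    rw [Complex.norm_real, Real.norm_eq_abs, abs_of_nonneg (by linarith)]
  set z₀ : ℂ := ((1 - ε / 4 : ℝ) : ℂ) with hz₀
  have hz0R : z₀ ∈ Rz ε := by
    refine ⟨?_, ?_⟩ <;> rw [hn] <;> linarith
  have hz0A : z₀ ∈ Ann ε := by
    refine ⟨?_, ?_⟩ <;> rw [hn] <;> linarith
  have hδ0 : 0 ≤ 1 - ‖w z₀‖ := by linarith [hw1 z₀ hz0A]
  have hδ1 : 1 - ‖w z₀‖ ≤ 1 := by linarith [norm_nonneg (w z₀)]
  have hM : 1 ≤ Real.exp (C₁ / ε) := Real.one_le_exp (div_nonneg hC₁.le hε.le)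
  have hM0 : 0 < Real.exp (C₁ / ε) := Real.exp_pos _
  have hRA : ∀ z ∈ Rz ε, z ∈ Ann ε := by
    intro z hz
    exact ⟨by linarith [hz.1], by linarith [hz.2]⟩
  have hE0 : 0 ≤ Real.exp (-(p * ε ^ 2 / 60)) * (256 / ε ^ 2) := by positivity
  have hI0 : 0 ≤ ∫ u in Rp ε, ‖g u‖ ^ p :=
    integral_nonneg (fun u => Real.rpow_nonneg (norm_nonneg _) _)
  have hEI : 0 ≤ Real.exp (-(p * ε ^ 2 / 60)) * (256 / ε ^ 2) * ∫ u in Rp ε, ‖g u‖ ^ p :=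
    mul_nonneg hE0 hI0
  obtain ⟨m, hm0, hmp⟩ : ∃ m : ℝ, 0 ≤ m ∧
      m ^ p = Real.exp (-(p * ε ^ 2 / 60)) * (256 / ε ^ 2) * ∫ u in Rp ε, ‖g u‖ ^ p :=
    ⟨_, Real.rpow_nonneg hEI p⁻¹, Real.rpow_inv_rpow hEI hp0.ne'⟩
  have hgm : ∀ z : ℂ, ‖z‖ ≤ 1 - ε / 2 → ‖g z‖ ≤ m := by
    intro z hz
    have h1 := hBLA hMEAN ε p g b hε hε2 hp1 hg hb2 hb1 z hz
    rw [← hmp] at h1
    exact (Real.rpow_le_rpow_iff (norm_nonneg _) hm0 hp0).1 h1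
  have hsph : ∀ z : ℂ, ‖z‖ = 1 - ε / 2 → z ∈ Rz ε := by
    intro z hz
    exact ⟨by rw [hz], by rw [hz]; linarith⟩
  have hfm : ∀ z : ℂ, ‖z‖ ≤ 1 - ε / 2 → ‖f z‖ ≤ m := by
    refine maxp (1 - ε / 2) m (by linarith) (by linarith) f hf ?_
    intro z hz
    exact (hfg z (hRA z (hsph z hz))).trans (hgm z hz.le)
  have hFm : ∀ z : ℂ, ‖z‖ ≤ 1 - ε / 2 →
      ‖f z - w z₀ * g z‖ ≤ Real.exp (C₁ / ε) * (1 - ‖w z₀‖) * m := by
    refine maxp (1 - ε / 2) _ (by linarith) (by linarith) (fun z => f z - w z₀ * g z)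
      (hf.sub (hg.const_mul (w z₀))) ?_
    intro z hz
    change ‖f z - w z₀ * g z‖ ≤ _
    have h1 := hfw z (hRA z (hsph z hz))
    have h2 := (hch ε w hε hε2 hw hw1 z₀ hz0R z (hsph z hz)).2
    have h3 := hgm z hz.le
    have h4 : f z - w z₀ * g z = (w z - w z₀) * g z := by
      rw [h1]
      ring
    rw [h4, norm_mul]
    exact mul_le_mul h2 h3 (norm_nonneg _) (mul_nonneg hM0.le hδ0)
  have hfb : ∀ z : ℂ, ‖z‖ ≤ 1 - ε / 2 →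
      ‖f z‖ ≤ ‖g z‖ + Real.exp (C₁ / ε) * (1 - ‖w z₀‖) * m := by
    intro z hz
    have h1 := hFm z hz
    have h2 : ‖f z‖ ≤ ‖f z - w z₀ * g z‖ + ‖w z₀ * g z‖ := by
      have := norm_add_le (f z - w z₀ * g z) (w z₀ * g z)
      rwa [sub_add_cancel] at this
    have h3 : ‖w z₀ * g z‖ ≤ ‖g z‖ := by
      rw [norm_mul]
      exact mul_le_of_le_one_left (norm_nonneg _) (hw1 z₀ hz0A)
    linarith
  obtain ⟨Γ, lam, hΓ0, hl0, hl1, hΓ, hreg1, hreg2⟩ :=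
    hREG (Real.exp (C₁ / ε)) (1 - ‖w z₀‖) m p hM hδ0 hδ1 hm0 hp1
  refine hINT ε p Γ lam f g hε hε2 hp1 hΓ0 hl0 hl1 hf hg hfg ?_ ?_ ?_
  · intro z hz
    have hz' : ‖z‖ ≤ 1 - ε / 2 := by linarith
    exact hreg1 ‖f z‖ ‖g z‖ (norm_nonneg _) (hfm z hz') (norm_nonneg _) (hgm z hz') (hfb z hz')
  · intro z hz
    have hzR : z ∈ Rz ε := ⟨by linarith [hz.1], hz.2⟩
    have h1 := (hch ε w hε hε2 hw hw1 z hzR z₀ hz0R).1
    have h2 : ‖w z‖ ≤ 1 - (1 - ‖w z₀‖) / Real.exp (C₁ / ε) := by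
      have h3 : (1 - ‖w z₀‖) / Real.exp (C₁ / ε) ≤ 1 - ‖w z‖ := by
        rw [div_le_iff₀ hM0, mul_comm]
        exact h1
      linarith
    have h3 := hreg2 ‖w z‖ (norm_nonneg _) h2
    rw [hfw z (hRA z hzR), norm_mul, Real.mul_rpow (norm_nonneg _) (norm_nonneg _)]
    exact mul_le_mul_of_nonneg_right h3 (Real.rpow_nonneg (norm_nonneg _) _)
  · rw [hmp] at hΓ
    have h1 : π * Γ ≤ π * (2 * Real.exp 1 * Real.exp (C₁ / ε) ^ 2 * lam *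
        (Real.exp (-(p * ε ^ 2 / 60)) * (256 / ε ^ 2) * ∫ u in Rp ε, ‖g u‖ ^ p)) :=
      mul_le_mul_of_nonneg_left hΓ Real.pi_pos.le
    refine h1.trans ?_
    have h2 : π * (2 * Real.exp 1 * Real.exp (C₁ / ε) ^ 2 * lam *
        (Real.exp (-(p * ε ^ 2 / 60)) * (256 / ε ^ 2) * ∫ u in Rp ε, ‖g u‖ ^ p))
        = (π * (2 * Real.exp 1 * Real.exp (C₁ / ε) ^ 2) *
          (Real.exp (-(p * ε ^ 2 / 60)) * (256 / ε ^ 2))) *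
          (lam * ∫ u in Rp ε, ‖g u‖ ^ p) := by ring
    rw [h2]
    exact mul_le_of_le_one_left (mul_nonneg hl0 hI0) hnum1

end Pool.Agent.Y931.KB
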